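import Pool.Agent.Lib.MP_bc94b4_co.Base

/-! The starting configuration: pairs of a twisted vertex or an apex with another vertex. -/

set_option autoImplicit false

namespace Pool.Agent.Bc94b4

variable {κ : Type*} [Fintype κ] [DecidableEq κ]

lemma Par.pows {n t : ℝ} (h : Par n t) :
    t ≤ 1 / 10 ∧ t ^ 2 ≤ t / 10 ∧ t ^ 4 ≤ t ^ 2 / 10 ∧ t ^ 5 ≤ t ^ 4 / 10 ∧ t ^ 6 ≤ t ^ 5 / 10 ∧
      t ^ 7 ≤ t ^ 6 / 10 ∧ t ^ 8 ≤ t ^ 7 / 10 ∧ t ^ 9 ≤ t ^ 8 / 10 ∧ t ^ 11 ≤ t ^ 9 / 10 ∧
      t ^ 12 ≤ t ^ 11 / 10 ∧ 0 < t ^ 12 := by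
  obtain ⟨q0, q1, q2, q3, q4, q5, q6, q7, q8, q9, q10, q11, q12, q13, q14, q15,
    q16, q17, q18, q19, q20, q21, q22, q23, q24, q25, q26, q27, q28, q29, q30⟩ := h.big
  refine ⟨?_, ?_, ?_, ?_, ?_, ?_, ?_, ?_, ?_, ?_, ?_⟩ <;> linarith

/-- The slope used for a twisted vertex against an unmoved vertex. -/
noncomputable def slope (t : ℝ) : Bool → Bool → ℝ
  | true, true => t ^ 2
  | false, false => 1 / 2
  | true, false => -t ^ 2
  | false, true => -1 / 2

/-- A twisted vertex and an unmoved vertex. -/
lemma good_sp_cube {t : ℝ} (h : Par (Fintype.card κ) t) (e f : Bool)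
    {y : Option (Option κ) → Bool} (hy : ¬IsS y) :
    Good (P0 (κ := κ) t) (Sum.inl (sv e f)) (Sum.inl y) := by
  have hy' := hy
  simp only [IsS, not_forall] at hy'
  obtain ⟨j, hj⟩ := hy'
  have hj : y (some (some j)) = false := by simpa using hj
  refine good_pivot {v | ¬IsS v} (fun v hv => P0_not hv) hy (some (some j)) (slope t e f) _ ?_ ?_
  · rw [hj, P0_sv]
    obtain ⟨p1, p2, p3, p4, p5, p6, p7, p8, p9, p10, p11⟩ := h.pows
    cases e <;> cases f <;> simp only [sp, mk, slope, sg_false] <;> linarith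
  · intro z hz
    rw [hj, P0_sv]
    rcases cases_idx z with ⟨b, rfl⟩ | ⟨b, b', rfl⟩ | ⟨v, hv, rfl⟩
    · obtain ⟨p1, p2, p3, p4, p5, p6, p7, p8, p9, p10, p11⟩ := h.pows
      cases e <;> cases f <;> cases b <;> refine ⟨?_, fun _ => ?_⟩ <;>
        simp only [P0, sp, mk, slope, sg_false, sg_true] <;> linarith
    · rw [P0_sv]
      obtain ⟨p1, p2, p3, p4, p5, p6, p7, p8, p9, p10, p11⟩ := h.pows
      cases e <;> cases f <;> cases b <;> cases b' <;> refine ⟨?_, fun hne => ?_⟩ <;> first
        | exact absurd rfl hne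
        | (simp only [sp, mk, slope, sg_false]; linarith)
    · exact absurd rfl (hz v hv)

omit [DecidableEq κ] in
/-- The two apexes. -/
lemma good_apex_apex {t : ℝ} (h : Par (Fintype.card κ) t) :
    Good (P0 (κ := κ) t) (Sum.inr true) (Sum.inr false) := by
  refine ⟨mk 1 0 0 fun _ => 0, fun z => ?_⟩
  rcases cases_idx z with ⟨b, rfl⟩ | ⟨b, b', rfl⟩ | ⟨v, hv, rfl⟩
  · cases b <;> simp [P0, val_mk_mk]
  · rw [P0_sv]
    obtain ⟨p1, p2, p3, p4, p5, p6, p7, p8, p9, p10, p11⟩ := h.pows
    cases b <;> cases b' <;> refine ⟨fun _ => ?_, fun _ => ?_⟩ <;>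
      simp only [P0, sp, val_mk_mk, sg_false, sg_true] <;> linarith
  · rw [P0_not hv, val_cube]
    simp [P0, val_mk_mk]

/-- The weights of the first two coordinates used for an apex and a vertex opposite to the
twisted face. -/
def wt (t : ℝ) (e f : Bool) : ℝ × ℝ := if e = f then (1, t ^ 4) else (t ^ 4, 1)

omit [DecidableEq κ] in
/-- An apex and a vertex opposite to the twisted face. -/
lemma good_apex_opp {t : ℝ} (h : Par (Fintype.card κ) t) (b : Bool)
    {v : Option (Option κ) → Bool} (hv : ∀ j, v (some (some j)) = false) :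
    Good (P0 (κ := κ) t) (Sum.inr b) (Sum.inl v) := by
  have hn1 := h.n1
  have hnt := h.nt
  have ht0 := h.t0
  have hne : Nonempty κ := Fintype.card_pos_iff.1 (by
    exact_mod_cast (by linarith : (0 : ℝ) < Fintype.card κ))
  obtain ⟨j0⟩ := hne
  have hvS : ¬IsS v := fun hS => by simpa [hv j0] using hS j0
  have hzv : zeta v = -Fintype.card κ := by simp [zeta, hv]
  obtain ⟨e, he⟩ : ∃ e, v none = e := ⟨_, rfl⟩
  obtain ⟨f, hf⟩ : ∃ f, v (some none) = f := ⟨_, rfl⟩
  have ht4 : 0 < t ^ 4 := by positivity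
  refine good_of_lex
    (mk (sg b * (1 + t ^ 4)) (-sg e * (wt t e f).1) (-sg f * (wt t e f).2) fun _ => 0)
    (mk (sg b * (Fintype.card κ - 1)) 0 0 fun _ => 1) (fun z hz => ?_) (fun z hz => ?_)
  · rcases cases_idx z with ⟨c, rfl⟩ | ⟨c, c', rfl⟩ | ⟨u, hu, rfl⟩
    · left
      cases b <;> cases c <;> first
        | exact absurd rfl hz
        | (simp only [P0, val_mk_mk, sg_false, sg_true]; linarith)
    · left
      rw [P0_sv]
      obtain ⟨p1, p2, p3, p4, p5, p6, p7, p8, p9, p10, p11⟩ := h.pows
      cases b <;> cases e <;> cases f <;> cases c <;> cases c' <;>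
        simp only [P0, sp, wt, val_mk_mk, sg_false, sg_true, if_true, Bool.true_eq_false,
          Bool.false_eq_true, if_false] <;> linarith
    · right
      rw [P0_not hu, val_cube, val_cube]
      have := zeta_le hu
      have h1 := sg_mul_self b
      refine ⟨?_, ?_⟩
      · cases b <;> cases e <;> cases f <;> cases u none <;> cases u (some none) <;>
          simp only [P0, wt, val_mk_mk, sg_false, sg_true, if_true, Bool.true_eq_false,
            Bool.false_eq_true, if_false] <;> linarith
      · cases b <;> simp only [P0, val_mk_mk, sg_false, sg_true] <;> linarith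
  · rw [P0_not hvS, val_cube, val_cube, he, hf, hzv]
    rcases cases_idx z with ⟨c, rfl⟩ | ⟨c, c', rfl⟩ | ⟨u, hu, rfl⟩
    · by_cases hc : c = b
      · left
        subst hc
        cases c <;> cases e <;> cases f <;>
          simp only [P0, wt, val_mk_mk, sg_false, sg_true, if_true, Bool.true_eq_false,
            Bool.false_eq_true, if_false] <;> linarith
      · right
        cases b <;> cases c <;> first
          | exact absurd rfl hc
          | (cases e <;> cases f <;> refine ⟨?_, ?_⟩ <;>
              simp only [P0, wt, val_mk_mk, sg_false, sg_true, if_true, Bool.true_eq_false,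
                Bool.false_eq_true, if_false] <;> linarith)
    · left
      rw [P0_sv]
      obtain ⟨p1, p2, p3, p4, p5, p6, p7, p8, p9, p10, p11⟩ := h.pows
      cases b <;> cases e <;> cases f <;> cases c <;> cases c' <;>
        simp only [sp, wt, val_mk_mk, sg_false, sg_true, if_true, Bool.true_eq_false,
          Bool.false_eq_true, if_false] <;> linarith
    · rw [P0_not hu, val_cube, val_cube]
      by_cases hall : ∀ j, u (some (some j)) = false
      · left
        have hne : ¬(u none = e ∧ u (some none) = f) := by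
          rintro ⟨h1, h2⟩
          refine hz (congrArg _ (funext fun k => ?_))
          rcases k with _ | _ | j
          · rw [h1, he]
          · rw [h2, hf]
          · rw [hall, hv]
        revert hne
        cases e <;> cases f <;> cases u none <;> cases u (some none) <;> intro hne <;> first
          | exact absurd ⟨rfl, rfl⟩ hne
          | (simp only [wt, sg_false, sg_true, if_true, Bool.true_eq_false,
              Bool.false_eq_true, if_false]; linarith)
      · right
        simp only [not_forall] at hall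
        obtain ⟨j, hj⟩ := hall
        have := lt_zeta (v := u) (j := j) (by simpa using hj)
        refine ⟨?_, by linarith⟩
        cases e <;> cases f <;> cases u none <;> cases u (some none) <;>
          simp only [wt, sg_false, sg_true, if_true, Bool.true_eq_false,
            Bool.false_eq_true, if_false] <;> linarith

omit [DecidableEq κ] in
/-- Every cube vertex stays within `2 t ^ 4` of its cube position. -/
lemma close {t : ℝ} (h : Par (Fintype.card κ) t) (v : Option (Option κ) → Bool)
    (k : Option (Option (Option κ))) : |P0 t (Sum.inl v) k - cube v k| ≤ 2 * t ^ 4 := by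
  by_cases hv : IsS v
  · rw [hv.eq, P0_sv]
    obtain ⟨p1, p2, p3, p4, p5, p6, p7, p8, p9, p10, p11⟩ := h.pows
    rw [abs_le]
    rcases k with _ | _ | _ | j <;> cases v none <;> cases v (some none) <;> refine ⟨?_, ?_⟩ <;>
      simp only [sp, mk, cube, sv, sg_false, sg_true] <;> linarith
  · rw [P0_not hv, sub_self, abs_zero]
    have := h.t0
    positivity

omit [DecidableEq κ] in
/-- The moved points lie strictly inside the prism. -/
lemma inside {t : ℝ} (h : Par (Fintype.card κ) t) (z : (Option (Option κ) → Bool) ⊕ Bool)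
    (hz : ∀ v, ¬IsS v → z ≠ Sum.inl v) (i : Option (Option κ)) : |P0 t z (some i)| < 1 := by
  rcases cases_idx z with ⟨b, rfl⟩ | ⟨b, b', rfl⟩ | ⟨v, hv, rfl⟩
  · obtain ⟨p1, p2, p3, p4, p5, p6, p7, p8, p9, p10, p11⟩ := h.pows
    rw [abs_lt]
    rcases i with _ | _ | j <;> refine ⟨?_, ?_⟩ <;> simp only [P0, mk] <;> linarith
  · rw [P0_sv]
    obtain ⟨p1, p2, p3, p4, p5, p6, p7, p8, p9, p10, p11⟩ := h.pows
    rw [abs_lt]
    rcases i with _ | _ | j <;> cases b <;> cases b' <;> refine ⟨?_, ?_⟩ <;>
      simp only [sp, mk] <;> linarith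
  · exact absurd rfl (hz v hv)

end Pool.Agent.Bc94b4
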