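import Pool.Agent.Lib.MP_bc94b4_co.Step

/-! The starting configuration: the cube, two apexes and four twisted vertices of a 2-face. -/

set_option autoImplicit false

namespace Pool.Agent.Bc94b4

variable {κ : Type*} [Fintype κ] [DecidableEq κ]

/-- A vector with height `h`, two distinguished coordinates and the remaining coordinates `r`. -/
def mk (h p1 p2 : ℝ) (r : κ → ℝ) : Option (Option (Option κ)) → ℝ
  | none => h
  | some none => p1
  | some (some none) => p2
  | some (some (some j)) => r j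

omit [DecidableEq κ] in
lemma val_mk (γ a1 a2 : ℝ) (c : κ → ℝ) (p : Option (Option (Option κ)) → ℝ) :
    val (mk γ a1 a2 c) p = γ * p none + a1 * p (some none) + a2 * p (some (some none)) +
      ∑ j, c j * p (some (some (some j))) := by
  simp [val, Fintype.sum_option, mk, add_assoc]

/-- The four twisted vertices. -/
def sp (t : ℝ) : Bool → Bool → Option (Option (Option κ)) → ℝ
  | true, true => mk (t ^ 5) (1 - t ^ 5 - t ^ 7) (1 - t ^ 8) fun _ => 1 - t ^ 8
  | false, false => mk (t ^ 4) (-(1 - t ^ 4 - t ^ 7)) (-(1 - t ^ 5)) fun _ => 1 - t ^ 5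
  | true, false => mk (-t ^ 5) (1 - t ^ 8) (-(1 - t ^ 5 - t ^ 7)) fun _ => 1 - t ^ 8
  | false, true => mk (-t ^ 4) (-(1 - t ^ 5)) (1 - t ^ 4 - t ^ 7) fun _ => 1 - t ^ 5

/-- The vertices of the twisted 2-face. -/
def IsS (v : Option (Option κ) → Bool) : Prop := ∀ j, v (some (some j)) = true

/-- The vertex of the twisted 2-face with first two signs `e, f`. -/
def sv (e f : Bool) : Option (Option κ) → Bool
  | none => e
  | some none => f
  | some (some _) => true

open Classical in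
/-- The starting configuration. -/
noncomputable def P0 (t : ℝ) : (Option (Option κ) → Bool) ⊕ Bool → Option (Option (Option κ)) → ℝ
  | Sum.inl v => if IsS v then sp t (v none) (v (some none)) else cube v
  | Sum.inr e => mk (sg e) 0 0 fun _ => -t

omit [Fintype κ] [DecidableEq κ] in
lemma IsS.eq {v : Option (Option κ) → Bool} (h : IsS v) : v = sv (v none) (v (some none)) := by
  funext k
  rcases k with _ | _ | j
  · rfl
  · rfl
  · exact h j

omit [Fintype κ] [DecidableEq κ] in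
lemma P0_sv (t : ℝ) (e f : Bool) : P0 (κ := κ) t (Sum.inl (sv e f)) = sp t e f := by
  have : IsS (sv (κ := κ) e f) := fun _ => rfl
  simp only [P0, if_pos this]; rfl

omit [Fintype κ] [DecidableEq κ] in
lemma P0_not {t : ℝ} {v : Option (Option κ) → Bool} (h : ¬IsS v) :
    P0 t (Sum.inl v) = cube v := by
  simp only [P0, if_neg h]

omit [Fintype κ] [DecidableEq κ] in
lemma cases_idx (z : (Option (Option κ) → Bool) ⊕ Bool) :
    (∃ e, z = Sum.inr e) ∨ (∃ e f, z = Sum.inl (sv e f)) ∨ ∃ v, ¬IsS v ∧ z = Sum.inl v := by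
  rcases z with v | e
  · by_cases h : IsS v
    · exact Or.inr (Or.inl ⟨_, _, congrArg _ h.eq⟩)
    · exact Or.inr (Or.inr ⟨v, h, rfl⟩)
  · exact Or.inl ⟨e, rfl⟩

/-- The sum of the remaining signs. -/
def zeta (v : Option (Option κ) → Bool) : ℝ := ∑ j, sg (v (some (some j)))

omit [DecidableEq κ] in
lemma zeta_le {v : Option (Option κ) → Bool} (h : ¬IsS v) : zeta v ≤ Fintype.card κ - 2 := by
  simp only [IsS, not_forall] at h
  obtain ⟨j, hj⟩ := h
  have h1 : ∑ i : κ, (1 - sg (v (some (some i)))) = Fintype.card κ - zeta v := by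
    simp [zeta, Finset.sum_sub_distrib]
  have h2 : 1 - sg (v (some (some j))) ≤ ∑ i : κ, (1 - sg (v (some (some i)))) :=
    Finset.single_le_sum (f := fun i => 1 - sg (v (some (some i))))
      (fun i _ => by cases v (some (some i)) <;> norm_num) (Finset.mem_univ j)
  have h3 : v (some (some j)) = false := by simpa using hj
  rw [h3] at h2
  simp only [sg_false] at h2
  linarith

omit [DecidableEq κ] in
lemma le_zeta (v : Option (Option κ) → Bool) : -(Fintype.card κ : ℝ) ≤ zeta v := by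
  have : ∑ _i : κ, (-1 : ℝ) ≤ zeta v :=
    Finset.sum_le_sum fun i _ => by cases v (some (some i)) <;> norm_num
  simpa using this

omit [DecidableEq κ] in
lemma lt_zeta {v : Option (Option κ) → Bool} {j : κ} (h : v (some (some j)) = true) :
    -(Fintype.card κ : ℝ) < zeta v := by
  have : ∑ _i : κ, (-1 : ℝ) < zeta v :=
    Finset.sum_lt_sum (fun i _ => by cases v (some (some i)) <;> norm_num)
      ⟨j, Finset.mem_univ _, by rw [h]; norm_num⟩
  simpa using this

omit [DecidableEq κ] in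
lemma val_cube (γ a1 a2 c : ℝ) (v : Option (Option κ) → Bool) :
    val (mk γ a1 a2 fun _ => c) (cube v) =
      a1 * sg (v none) + a2 * sg (v (some none)) + c * zeta v := by
  simp [val_mk, cube, zeta, Finset.mul_sum]

omit [DecidableEq κ] in
lemma val_mk_mk (γ a1 a2 c h p1 p2 r : ℝ) :
    val (mk (κ := κ) γ a1 a2 fun _ => c) (mk h p1 p2 fun _ => r) =
      γ * h + a1 * p1 + a2 * p2 + Fintype.card κ * (c * r) := by
  simp [val_mk, mk]

/-- The size assumptions on the parameter. -/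
structure Par (n t : ℝ) : Prop where
  n1 : 1 ≤ n
  t0 : 0 < t
  nt : n * t ≤ 1 / 10

lemma Par.chain {n t : ℝ} (h : Par n t) (k : ℕ) :
    0 < t ^ k ∧ t ^ (k + 1) ≤ n * t ^ (k + 1) ∧ n * t ^ (k + 1) ≤ t ^ k / 10 := by
  have h0 := h.t0
  have hk : 0 < t ^ k := by positivity
  refine ⟨hk, le_mul_of_one_le_left (by positivity) h.n1, ?_⟩
  have := mul_le_mul_of_nonneg_left h.nt hk.le
  rw [pow_succ]; linarith

/-- All the power inequalities used below. -/
lemma Par.big {n t : ℝ} (h : Par n t) :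
    t ≤ n * t ∧
      n * t ≤ 1 / 10 ∧
      t ^ 2 ≤ n * t ^ 2 ∧
      n * t ^ 2 ≤ t / 10 ∧
      t ^ 3 ≤ n * t ^ 3 ∧
      n * t ^ 3 ≤ t ^ 2 / 10 ∧
      t ^ 4 ≤ n * t ^ 4 ∧
      n * t ^ 4 ≤ t ^ 3 / 10 ∧
      t ^ 5 ≤ n * t ^ 5 ∧
      n * t ^ 5 ≤ t ^ 4 / 10 ∧
      t ^ 6 ≤ n * t ^ 6 ∧
      n * t ^ 6 ≤ t ^ 5 / 10 ∧
      t ^ 7 ≤ n * t ^ 7 ∧
      n * t ^ 7 ≤ t ^ 6 / 10 ∧
      t ^ 8 ≤ n * t ^ 8 ∧
      n * t ^ 8 ≤ t ^ 7 / 10 ∧
      t ^ 9 ≤ n * t ^ 9 ∧
      n * t ^ 9 ≤ t ^ 8 / 10 ∧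
      t ^ 10 ≤ n * t ^ 10 ∧
      n * t ^ 10 ≤ t ^ 9 / 10 ∧
      t ^ 11 ≤ n * t ^ 11 ∧
      n * t ^ 11 ≤ t ^ 10 / 10 ∧
      t ^ 12 ≤ n * t ^ 12 ∧
      n * t ^ 12 ≤ t ^ 11 / 10 ∧
      t ^ 13 ≤ n * t ^ 13 ∧
      n * t ^ 13 ≤ t ^ 12 / 10 ∧
      t ^ 14 ≤ n * t ^ 14 ∧
      n * t ^ 14 ≤ t ^ 13 / 10 ∧
      t ^ 15 ≤ n * t ^ 15 ∧
      n * t ^ 15 ≤ t ^ 14 / 10 ∧
      0 < t ^ 15 := by
  have c0 := h.chain 0
  have c1 := h.chain 1
  have c2 := h.chain 2
  have c3 := h.chain 3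
  have c4 := h.chain 4
  have c5 := h.chain 5
  have c6 := h.chain 6
  have c7 := h.chain 7
  have c8 := h.chain 8
  have c9 := h.chain 9
  have c10 := h.chain 10
  have c11 := h.chain 11
  have c12 := h.chain 12
  have c13 := h.chain 13
  have c14 := h.chain 14
  have c15 := h.chain 15
  norm_num only [pow_zero, pow_one] at *
  exact ⟨c0.2.1, c0.2.2, c1.2.1, c1.2.2, c2.2.1, c2.2.2, c3.2.1, c3.2.2, c4.2.1, c4.2.2, c5.2.1, c5.2.2, c6.2.1, c6.2.2, c7.2.1, c7.2.2, c8.2.1, c8.2.2, c9.2.1, c9.2.2, c10.2.1, c10.2.2, c11.2.1, c11.2.2, c12.2.1, c12.2.2, c13.2.1, c13.2.2, c14.2.1, c14.2.2, c15.1⟩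

omit [DecidableEq κ] in
/-- A pair of twisted vertices, separated by a functional with a constant weight `c ≥ 0` on the
remaining coordinates. -/
lemma good_sp {t : ℝ} (e f e' f' : Bool) (γ a1 a2 c : ℝ) (hc : 0 ≤ c)
    (ha : |a1| + |a2| ≤ 1)
    (hhi : 1 + c * (Fintype.card κ - 2) < val (mk (κ := κ) γ a1 a2 fun _ => c) (sp t e f))
    (hlo : val (mk (κ := κ) γ a1 a2 fun _ => c) (sp t e' f') < -1 - c * Fintype.card κ)
    (hq : ∀ b, val (mk (κ := κ) γ a1 a2 fun _ => c) (mk (sg b) 0 0 fun _ => -t) <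
        val (mk (κ := κ) γ a1 a2 fun _ => c) (sp t e f) ∧
      val (mk (κ := κ) γ a1 a2 fun _ => c) (sp t e' f') <
        val (mk (κ := κ) γ a1 a2 fun _ => c) (mk (sg b) 0 0 fun _ => -t))
    (hs : ∀ b b', ((b, b') ≠ (e, f) → val (mk (κ := κ) γ a1 a2 fun _ => c) (sp t b b') <
        val (mk (κ := κ) γ a1 a2 fun _ => c) (sp t e f)) ∧
      ((b, b') ≠ (e', f') → val (mk (κ := κ) γ a1 a2 fun _ => c) (sp t e' f') <
        val (mk (κ := κ) γ a1 a2 fun _ => c) (sp t b b'))) :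
    Good (P0 (κ := κ) t) (Sum.inl (sv e f)) (Sum.inl (sv e' f')) := by
  refine ⟨mk γ a1 a2 fun _ => c, fun z => ?_⟩
  rw [P0_sv, P0_sv]
  rcases cases_idx z with ⟨b, rfl⟩ | ⟨b, b', rfl⟩ | ⟨v, hv, rfl⟩
  · exact ⟨fun _ => (hq b).1, fun _ => (hq b).2⟩
  · rw [P0_sv]
    refine ⟨fun h => (hs b b').1 ?_, fun h => (hs b b').2 ?_⟩
    · rintro ⟨⟩; exact h rfl
    · rintro ⟨⟩; exact h rfl
  · rw [P0_not hv, val_cube]
    have h1 := mul_le_mul_of_nonneg_left (zeta_le hv) hc
    have h2 := mul_le_mul_of_nonneg_left (le_zeta v) hc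
    have h3 : |a1 * sg (v none)| = |a1| := by rw [abs_mul, abs_sg, mul_one]
    have h4 : |a2 * sg (v (some none))| = |a2| := by rw [abs_mul, abs_sg, mul_one]
    have h5 := abs_le.1 h3.le
    have h6 := abs_le.1 h4.le
    exact ⟨fun _ => by linarith [h5.2, h6.2], fun _ => by linarith [h5.1, h6.1]⟩

omit [DecidableEq κ] in
lemma good_AD {t : ℝ} (h : Par (Fintype.card κ) t) :
    Good (P0 (κ := κ) t) (Sum.inl (sv true true)) (Sum.inl (sv false true)) := by
  refine good_sp _ _ _ _ 1 1 0 (2 * t ^ 7) ?_ ?_ ?_ ?_ ?_ ?_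
  · have := h.t0
    positivity
  · norm_num
  all_goals obtain ⟨q0, q1, q2, q3, q4, q5, q6, q7, q8, q9, q10, q11, q12, q13, q14, q15,
    q16, q17, q18, q19, q20, q21, q22, q23, q24, q25, q26, q27, q28, q29, q30⟩ := h.big
  · simp only [sp, val_mk_mk]; linarith
  · simp only [sp, val_mk_mk]; linarith
  · intro b
    cases b <;> refine ⟨?_, ?_⟩ <;> (simp only [sp, val_mk_mk, sg_true, sg_false]; linarith)
  · intro b b'
    cases b <;> cases b' <;> refine ⟨fun hne => ?_, fun hne => ?_⟩ <;> first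
      | exact absurd rfl hne
      | (simp only [sp, val_mk_mk]; linarith)

omit [DecidableEq κ] in
lemma good_DC {t : ℝ} (h : Par (Fintype.card κ) t) :
    Good (P0 (κ := κ) t) (Sum.inl (sv false true)) (Sum.inl (sv false false)) := by
  refine good_sp _ _ _ _ (-1) 0 1 (2 * t ^ 7) ?_ ?_ ?_ ?_ ?_ ?_
  · have := h.t0
    positivity
  · norm_num
  all_goals obtain ⟨q0, q1, q2, q3, q4, q5, q6, q7, q8, q9, q10, q11, q12, q13, q14, q15,
    q16, q17, q18, q19, q20, q21, q22, q23, q24, q25, q26, q27, q28, q29, q30⟩ := h.big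
  · simp only [sp, val_mk_mk]; linarith
  · simp only [sp, val_mk_mk]; linarith
  · intro b
    cases b <;> refine ⟨?_, ?_⟩ <;> (simp only [sp, val_mk_mk, sg_true, sg_false]; linarith)
  · intro b b'
    cases b <;> cases b' <;> refine ⟨fun hne => ?_, fun hne => ?_⟩ <;> first
      | exact absurd rfl hne
      | (simp only [sp, val_mk_mk]; linarith)

omit [DecidableEq κ] in
lemma good_CB {t : ℝ} (h : Par (Fintype.card κ) t) :
    Good (P0 (κ := κ) t) (Sum.inl (sv false false)) (Sum.inl (sv true false)) := by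
  refine good_sp _ _ _ _ 1 (-1) 0 (2 * t ^ 7) ?_ ?_ ?_ ?_ ?_ ?_
  · have := h.t0
    positivity
  · norm_num
  all_goals obtain ⟨q0, q1, q2, q3, q4, q5, q6, q7, q8, q9, q10, q11, q12, q13, q14, q15,
    q16, q17, q18, q19, q20, q21, q22, q23, q24, q25, q26, q27, q28, q29, q30⟩ := h.big
  · simp only [sp, val_mk_mk]; linarith
  · simp only [sp, val_mk_mk]; linarith
  · intro b
    cases b <;> refine ⟨?_, ?_⟩ <;> (simp only [sp, val_mk_mk, sg_true, sg_false]; linarith)
  · intro b b'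
    cases b <;> cases b' <;> refine ⟨fun hne => ?_, fun hne => ?_⟩ <;> first
      | exact absurd rfl hne
      | (simp only [sp, val_mk_mk]; linarith)

omit [DecidableEq κ] in
lemma good_BA {t : ℝ} (h : Par (Fintype.card κ) t) :
    Good (P0 (κ := κ) t) (Sum.inl (sv true false)) (Sum.inl (sv true true)) := by
  refine good_sp _ _ _ _ (-1) 0 (-1) (2 * t ^ 7) ?_ ?_ ?_ ?_ ?_ ?_
  · have := h.t0
    positivity
  · norm_num
  all_goals obtain ⟨q0, q1, q2, q3, q4, q5, q6, q7, q8, q9, q10, q11, q12, q13, q14, q15,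
    q16, q17, q18, q19, q20, q21, q22, q23, q24, q25, q26, q27, q28, q29, q30⟩ := h.big
  · simp only [sp, val_mk_mk]; linarith
  · simp only [sp, val_mk_mk]; linarith
  · intro b
    cases b <;> refine ⟨?_, ?_⟩ <;> (simp only [sp, val_mk_mk, sg_true, sg_false]; linarith)
  · intro b b'
    cases b <;> cases b' <;> refine ⟨fun hne => ?_, fun hne => ?_⟩ <;> first
      | exact absurd rfl hne
      | (simp only [sp, val_mk_mk]; linarith)

omit [DecidableEq κ] in
lemma good_AC {t : ℝ} (h : Par (Fintype.card κ) t) :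
    Good (P0 (κ := κ) t) (Sum.inl (sv true true)) (Sum.inl (sv false false)) := by
  refine good_sp _ _ _ _ (-1 / 2) 0 1 (t ^ 5) ?_ ?_ ?_ ?_ ?_ ?_
  · have := h.t0
    positivity
  · norm_num
  all_goals obtain ⟨q0, q1, q2, q3, q4, q5, q6, q7, q8, q9, q10, q11, q12, q13, q14, q15,
    q16, q17, q18, q19, q20, q21, q22, q23, q24, q25, q26, q27, q28, q29, q30⟩ := h.big
  · simp only [sp, val_mk_mk]; linarith
  · simp only [sp, val_mk_mk]; linarith
  · intro b
    cases b <;> refine ⟨?_, ?_⟩ <;> (simp only [sp, val_mk_mk, sg_true, sg_false]; linarith)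
  · intro b b'
    cases b <;> cases b' <;> refine ⟨fun hne => ?_, fun hne => ?_⟩ <;> first
      | exact absurd rfl hne
      | (simp only [sp, val_mk_mk]; linarith)

omit [DecidableEq κ] in
lemma good_BD {t : ℝ} (h : Par (Fintype.card κ) t) :
    Good (P0 (κ := κ) t) (Sum.inl (sv true false)) (Sum.inl (sv false true)) := by
  refine good_sp _ _ _ _ (1 / 2) 1 0 (t ^ 5) ?_ ?_ ?_ ?_ ?_ ?_
  · have := h.t0
    positivity
  · norm_num
  all_goals obtain ⟨q0, q1, q2, q3, q4, q5, q6, q7, q8, q9, q10, q11, q12, q13, q14, q15,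
    q16, q17, q18, q19, q20, q21, q22, q23, q24, q25, q26, q27, q28, q29, q30⟩ := h.big
  · simp only [sp, val_mk_mk]; linarith
  · simp only [sp, val_mk_mk]; linarith
  · intro b
    cases b <;> refine ⟨?_, ?_⟩ <;> (simp only [sp, val_mk_mk, sg_true, sg_false]; linarith)
  · intro b b'
    cases b <;> cases b' <;> refine ⟨fun hne => ?_, fun hne => ?_⟩ <;> first
      | exact absurd rfl hne
      | (simp only [sp, val_mk_mk]; linarith)

omit [DecidableEq κ] in
/-- Two different twisted vertices. -/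
lemma good_sp_sp {t : ℝ} (h : Par (Fintype.card κ) t) (e f e' f' : Bool)
    (hne : (e, f) ≠ (e', f')) :
    Good (P0 (κ := κ) t) (Sum.inl (sv e f)) (Sum.inl (sv e' f')) := by
  cases e <;> cases f <;> cases e' <;> cases f' <;> first
    | exact absurd rfl hne
    | exact good_AD h | exact (good_AD h).symm | exact good_DC h | exact (good_DC h).symm
    | exact good_CB h | exact (good_CB h).symm | exact good_BA h | exact (good_BA h).symm
    | exact good_AC h | exact (good_AC h).symm | exact good_BD h | exact (good_BD h).symm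

end Pool.Agent.Bc94b4
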