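import Pool.Agent.Lib.MP_bc94b4_co.Apex

/-! Assembly: a strictly antipodal family of `2 ^ (n + 2) + 2` points in dimension `n + 3`. -/

set_option autoImplicit false

namespace Pool.Agent.Bc94b4

variable {κ : Type*} [Fintype κ] [DecidableEq κ]

lemma abs_val_sub_le {K : Type*} [Fintype K] (a p q : K → ℝ) {δ : ℝ} (h : ∀ k, |p k - q k| ≤ δ) :
    |val a p - val a q| ≤ (∑ k, |a k|) * δ := by
  have : val a p - val a q = ∑ k, a k * (p k - q k) := by
    simp [val, mul_sub, Finset.sum_sub_distrib]
  rw [this, Finset.sum_mul]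
  refine (Finset.abs_sum_le_sum_abs _ _).trans (Finset.sum_le_sum fun k _ => ?_)
  rw [abs_mul]
  exact mul_le_mul_of_nonneg_left (h k) (abs_nonneg _)

/-- The functional with height coefficient `γ` and weights `lam` pointing away from `v`. -/
def wfun {ι : Type*} (γ : ℝ) (lam : ι → ℝ) (v : ι → Bool) : Option ι → ℝ
  | none => γ
  | some i => -(lam i * sg (v i))

/-- An apex and a vertex that is not opposite to the twisted face. -/
lemma good_apex_gen {t : ℝ} (h : Par (Fintype.card κ) t) (b : Bool)
    {v : Option (Option κ) → Bool} {j : κ} (hj : v (some (some j)) = true) :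
    Good (P0 (κ := κ) t) (Sum.inr b) (Sum.inl v) := by
  have ht0 := h.t0
  obtain ⟨p1, p2, p3, -⟩ := h.pows
  have c1 := (h.chain 1).2.2
  have c2 := (h.chain 2).2.2
  have c3 := h.chain 3
  norm_num only [pow_one] at c1 c2 c3
  have ht2 : 0 < t ^ 2 := by positivity
  set lam : Option (Option κ) → ℝ := fun i => if i = some (some j) then 1 else t ^ 2 with hlam
  have hl : ∀ i, t ^ 2 ≤ lam i := by
    intro i; simp only [hlam]; split_ifs <;> linarith
  set L : ℝ := ∑ i, lam i with hL
  have hLe : L = (Fintype.card κ + 2) * t ^ 2 + (1 - t ^ 2) := by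
    have : ∀ i, lam i = t ^ 2 + if i = some (some j) then 1 - t ^ 2 else 0 := by
      intro i; simp only [hlam]; split_ifs <;> ring
    rw [hL, Finset.sum_congr rfl fun i _ => this i, Finset.sum_add_distrib]
    simp [Fintype.card_option]
    left; ring
  have hn0 : (0 : ℝ) ≤ Fintype.card κ * t ^ 2 := by positivity
  have hL1 : 1 ≤ L := by rw [hLe]; linarith
  have hL2 : L ≤ 2 := by rw [hLe]; linarith
  set a := wfun (sg b * L) lam v with ha
  have hcube : ∀ u, val a (cube u) = ∑ i, -(lam i * (sg (v i) * sg (u i))) := by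
    intro u; simp [ha, val, Fintype.sum_option (α := Option (Option κ)), wfun, cube, mul_assoc]
  have hup : ∀ u, val a (cube u) ≤ L := by
    intro u
    rw [hcube, hL]
    refine Finset.sum_le_sum fun i _ => ?_
    have := neg_one_le_sg_mul (v i) (u i)
    have := hl i
    nlinarith
  have hv : val a (cube v) = -L := by
    rw [hcube, hL, ← Finset.sum_neg_distrib]
    exact Finset.sum_congr rfl fun i _ => by rw [sg_mul_self, mul_one]
  have hlow : ∀ u, u ≠ v → -L + 2 * t ^ 2 ≤ val a (cube u) := by
    intro u hu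
    obtain ⟨i, hi⟩ := Function.ne_iff.1 hu
    have h1 : val a (cube u) + L = ∑ k, lam k * (1 - sg (v k) * sg (u k)) := by
      rw [hcube, hL, ← Finset.sum_add_distrib]
      exact Finset.sum_congr rfl fun k _ => by ring
    have h2 : lam i * (1 - sg (v i) * sg (u i)) ≤ ∑ k, lam k * (1 - sg (v k) * sg (u k)) :=
      Finset.single_le_sum (f := fun k => lam k * (1 - sg (v k) * sg (u k)))
        (fun k _ => mul_nonneg (ht2.le.trans (hl k)) (sub_nonneg.2 (sg_mul_le _ _)))
        (Finset.mem_univ i)
    rw [sg_mul_of_ne hi.symm] at h2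
    have := hl i
    linarith
  have habs : ∑ k, |a k| = 2 * L := by
    rw [Fintype.sum_option]
    have e1 : |a none| = L := by
      simp only [ha, wfun]; rw [abs_mul, abs_sg, one_mul, abs_of_nonneg (by linarith)]
    have e2 : ∀ i, |a (some i)| = lam i := by
      intro i
      simp only [ha, wfun]
      rw [abs_neg, abs_mul, abs_sg, mul_one, abs_of_nonneg (ht2.le.trans (hl i))]
    rw [e1, Finset.sum_congr rfl fun i _ => e2 i, ← hL]; ring
  have hcl : ∀ u, |val a (P0 t (Sum.inl u)) - val a (cube u)| ≤ 8 * t ^ 4 := by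
    intro u
    have := abs_val_sub_le a _ _ (close h u)
    rw [habs] at this
    have h4 : 0 < t ^ 4 := by positivity
    nlinarith
  set W : ℝ := ∑ k : κ, lam (some (some k)) * sg (v (some (some k))) with hW
  have hWl : 1 - Fintype.card κ * t ^ 2 ≤ W := by
    have : ∑ k : κ, (-t ^ 2 + if k = j then 1 + t ^ 2 else 0) ≤ W := by
      refine Finset.sum_le_sum fun k _ => ?_
      by_cases hk : k = j
      · subst hk; simp [hlam, hj]
      · have : (some (some k) : Option (Option κ)) ≠ some (some j) := by simpa using hk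
        simp only [hlam, if_neg hk, if_neg this]
        cases v (some (some k)) <;> simp
        linarith
    rw [Finset.sum_add_distrib] at this
    simp at this
    linarith
  have hq : ∀ c, val a (P0 t (Sum.inr c)) = sg b * sg c * L + t * W := by
    intro c
    simp only [ha, val, Fintype.sum_option, wfun, P0, mk, hW, Finset.mul_sum]
    have : ∀ k : κ, -(lam (some (some k)) * sg (v (some (some k)))) * -t =
        t * (lam (some (some k)) * sg (v (some (some k)))) := fun k => by ring
    simp only [this]
    ring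
  have htW : t - Fintype.card κ * t ^ 3 ≤ t * W := by
    have := mul_le_mul_of_nonneg_left hWl ht0.le
    linarith
  have hvv := abs_le.1 (hcl v)
  refine ⟨a, fun z => ⟨fun hz => ?_, fun hz => ?_⟩⟩
  · rw [hq b, sg_mul_self]
    rcases z with u | c
    · have := abs_le.1 (hcl u)
      have := hup u
      linarith [this]
    · have hc : b ≠ c := fun hc => hz (by rw [hc])
      rw [hq c, sg_mul_of_ne hc]; linarith
  · rcases z with u | c
    · have h1 := abs_le.1 (hcl u)
      have h2 := hlow u fun hu => hz (by rw [hu])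
      linarith [h1.1, hvv.2]
    · rw [hq c]
      have := neg_one_le_sg_mul b c
      nlinarith [hvv.2]

/-- An apex and any other point. -/
lemma good_apex {t : ℝ} (h : Par (Fintype.card κ) t) (b : Bool)
    (y : (Option (Option κ) → Bool) ⊕ Bool) (hy : Sum.inr b ≠ y) :
    Good (P0 (κ := κ) t) (Sum.inr b) y := by
  rcases y with v | c
  · by_cases hv : ∀ j, v (some (some j)) = false
    · exact good_apex_opp h b hv
    · simp only [not_forall] at hv
      obtain ⟨j, hj⟩ := hv
      exact good_apex_gen h b (j := j) (by simpa using hj)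
  · cases b <;> cases c <;> first
      | exact absurd rfl hy
      | exact good_apex_apex h
      | exact (good_apex_apex h).symm

/-- A strictly antipodal family indexed by the vertices of the cube and two apexes. -/
theorem exists_family [Nonempty κ] :
    ∃ Q : (Option (Option κ) → Bool) ⊕ Bool → Option (Option (Option κ)) → ℝ,
      ∀ x y, x ≠ y → Good Q x y := by
  classical
  have hn : (1 : ℝ) ≤ Fintype.card κ := by exact_mod_cast Fintype.card_pos
  have h : Par (Fintype.card κ) (1 / (10 * Fintype.card κ)) :=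
    ⟨hn, by positivity, by field_simp; rfl⟩
  refine step (Finset.univ.filter fun v => ¬IsS v) (P0 (1 / (10 * Fintype.card κ)))
    (fun v hv => P0_not (Finset.mem_filter.1 hv).2)
    (fun z hz i => inside h z (fun v hv => hz v (by simpa using hv)) i) fun x y hxy hx => ?_
  rcases cases_idx x with ⟨b, rfl⟩ | ⟨e, f, rfl⟩ | ⟨v, hv, rfl⟩
  · exact good_apex h b y hxy
  · rcases cases_idx y with ⟨b, rfl⟩ | ⟨e', f', rfl⟩ | ⟨v, hv, rfl⟩
    · exact (good_apex h b _ hxy.symm).symm
    · exact good_sp_sp h e f e' f' (by rintro ⟨⟩; exact hxy rfl)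
    · exact good_sp_cube h e f hv
  · exact absurd rfl (hx v (by simpa using hv))

/-- Transfer of a strictly antipodal family to Euclidean space. -/
theorem transfer {K I : Type*} [Fintype K] [Fintype I] {d : ℕ} (e : K ≃ Fin d)
    (Q : I → K → ℝ) (hQ : ∀ x y, x ≠ y → Good Q x y) :
    ∃ S : Finset (EuclideanSpace ℝ (Fin d)), S.card = Fintype.card I ∧
      ∀ x ∈ S, ∀ y ∈ S, x ≠ y →
        ∃ u : EuclideanSpace ℝ (Fin d), ∀ z ∈ S,
          (z ≠ x → inner ℝ u z < inner ℝ u x) ∧ (z ≠ y → inner ℝ u y < inner ℝ u z) := by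
  classical
  let T : (K → ℝ) → EuclideanSpace ℝ (Fin d) := fun p => WithLp.toLp 2 fun i => p (e.symm i)
  have hT : ∀ a p, inner ℝ (T a) (T p) = val a p := by
    intro a p
    simp only [T, PiLp.inner_apply, val]
    rw [← e.sum_comp]
    simp [mul_comm]
  have hinj : Function.Injective fun x => T (Q x) := by
    intro x y hxy
    by_contra hne
    obtain ⟨a, ha⟩ := hQ x y hne
    have := (ha y).1 (Ne.symm hne)
    rw [← hT, ← hT, show T (Q x) = T (Q y) from hxy] at this
    exact lt_irrefl _ this
  refine ⟨Finset.univ.image fun x => T (Q x), ?_, ?_⟩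
  · rw [Finset.card_image_of_injective _ hinj, Finset.card_univ]
  · intro p hp q hq hpq
    obtain ⟨x, -, rfl⟩ := Finset.mem_image.1 hp
    obtain ⟨y, -, rfl⟩ := Finset.mem_image.1 hq
    obtain ⟨a, ha⟩ := hQ x y fun h => hpq (by rw [h])
    refine ⟨T a, fun r hr => ?_⟩
    obtain ⟨z, -, rfl⟩ := Finset.mem_image.1 hr
    rw [hT, hT, hT]
    exact ⟨fun h => (ha z).1 fun h' => h (by rw [h']), fun h => (ha z).2 fun h' => h (by rw [h'])⟩

end Pool.Agent.Bc94b4
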