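import Mathlib

/-! Strictly antipodal families near a cube: the lexicographic lemma, the pivot lemma and the
one-vertex-at-a-time perturbation lemma. -/

set_option autoImplicit false

open Filter Topology

namespace Pool.Agent.Bc94b4

section General

variable {K I : Type*} [Fintype K]

/-- The value of the linear functional with coefficients `a` at the point `p`. -/
def val (a p : K → ℝ) : ℝ := ∑ k, a k * p k

/-- `a` is maximised over the family only at `x` and minimised only at `y`. -/
def Sep (P : I → K → ℝ) (x y : I) (a : K → ℝ) : Prop :=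
  ∀ z, (z ≠ x → val a (P z) < val a (P x)) ∧ (z ≠ y → val a (P y) < val a (P z))

/-- The pair `x, y` is strictly antipodal in the family `P`. -/
def Good (P : I → K → ℝ) (x y : I) : Prop := ∃ a, Sep P x y a

lemma val_neg (a p : K → ℝ) : val (-a) p = -val a p := by
  simp [val, Finset.sum_neg_distrib]

lemma val_add_smul (f g p : K → ℝ) (w : ℝ) : val (f + w • g) p = val f p + w * val g p := by
  simp [val, add_mul, Finset.sum_add_distrib, Finset.mul_sum, mul_assoc]

lemma Good.symm {P : I → K → ℝ} {x y : I} (h : Good P x y) : Good P y x := by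
  obtain ⟨a, ha⟩ := h
  refine ⟨-a, fun z => ⟨fun hz => ?_, fun hz => ?_⟩⟩
  · rw [val_neg, val_neg]; linarith [(ha z).2 hz]
  · rw [val_neg, val_neg]; linarith [(ha z).1 hz]

lemma ev_lex {A B C D : ℝ} (h : A < B ∨ (A ≤ B ∧ C < D)) :
    ∀ᶠ w in 𝓝[>] (0 : ℝ), A + w * C < B + w * D := by
  rcases h with h | ⟨h1, h2⟩
  · apply Filter.Eventually.filter_mono nhdsWithin_le_nhds
    have h1 : ContinuousAt (fun w : ℝ => A + w * C) 0 := by fun_prop
    have h2 : ContinuousAt (fun w : ℝ => B + w * D) 0 := by fun_prop
    exact h1.eventually_lt h2 (by simpa using h)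
  · filter_upwards [self_mem_nhdsWithin] with w hw
    have hw : 0 < w := hw
    nlinarith [mul_pos hw (sub_pos.2 h2)]

lemma good_of_lex [Finite I] {P : I → K → ℝ} {x y : I} (f g : K → ℝ)
    (h1 : ∀ z, z ≠ x → val f (P z) < val f (P x) ∨
      (val f (P z) ≤ val f (P x) ∧ val g (P z) < val g (P x)))
    (h2 : ∀ z, z ≠ y → val f (P y) < val f (P z) ∨
      (val f (P y) ≤ val f (P z) ∧ val g (P y) < val g (P z))) : Good P x y := by
  have e : ∀ᶠ w in 𝓝[>] (0 : ℝ), Sep P x y (f + w • g) := by
    refine Filter.eventually_all.2 fun z => ?_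
    refine Filter.Eventually.and ?_ ?_
    · by_cases hz : z = x
      · exact Filter.Eventually.of_forall fun w h => absurd hz h
      · filter_upwards [ev_lex (h1 z hz)] with w hw _
        rwa [val_add_smul, val_add_smul]
    · by_cases hz : z = y
      · exact Filter.Eventually.of_forall fun w h => absurd hz h
      · filter_upwards [ev_lex (h2 z hz)] with w hw _
        rwa [val_add_smul, val_add_smul]
  obtain ⟨w, hw⟩ := e.exists
  exact ⟨_, hw⟩

end General

/-- The sign `±1` of a Boolean. -/
def sg (b : Bool) : ℝ := if b then 1 else -1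

@[simp] lemma sg_true : sg true = 1 := rfl
@[simp] lemma sg_false : sg false = -1 := rfl

lemma sg_mul_self (b : Bool) : sg b * sg b = 1 := by cases b <;> simp

lemma sg_mul_le (b c : Bool) : sg b * sg c ≤ 1 := by cases b <;> cases c <;> simp

lemma neg_one_le_sg_mul (b c : Bool) : -1 ≤ sg b * sg c := by cases b <;> cases c <;> simp

lemma sg_mul_of_ne {b c : Bool} (h : b ≠ c) : sg b * sg c = -1 := by
  cases b <;> cases c <;> simp_all

lemma abs_sg (b : Bool) : |sg b| = 1 := by cases b <;> simp

section Cube

variable {ι β : Type*} [Fintype ι] [DecidableEq ι]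

/-- The cube vertex with signs `v`, at height `0` (the coordinate `none` is the height). -/
def cube (v : ι → Bool) : Option ι → ℝ
  | none => 0
  | some i => sg (v i)

/-- The functional `-sg (y j) * (coordinate j) + γ * height`. -/
def piv (y : ι → Bool) (j : ι) (γ : ℝ) : Option ι → ℝ
  | none => γ
  | some i => if i = j then -sg (y j) else 0

/-- The functional minimised over the cube only at `y`. -/
def away (y : ι → Bool) : Option ι → ℝ
  | none => 0
  | some i => -sg (y i)

lemma val_piv (y : ι → Bool) (j : ι) (γ : ℝ) (p : Option ι → ℝ) :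
    val (piv y j γ) p = -sg (y j) * p (some j) + γ * p none := by
  simp [val, Fintype.sum_option, piv, add_comm]

omit [DecidableEq ι] in
lemma away_lt {y z : ι → Bool} (h : z ≠ y) : val (away y) (cube y) < val (away y) (cube z) := by
  obtain ⟨i, hi⟩ := Function.ne_iff.1 h
  simp only [val, Fintype.sum_option, away, cube, zero_mul, zero_add]
  refine Finset.sum_lt_sum (fun k _ => ?_) ⟨i, Finset.mem_univ _, ?_⟩
  · have := sg_mul_self (y k); have := sg_mul_le (y k) (z k); linarith
  · have := sg_mul_self (y i); have := sg_mul_of_ne hi.symm; linarith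

/-- Pivot lemma. -/
lemma good_pivot [Finite β] {P : (ι → Bool) ⊕ β → Option ι → ℝ} (U : Set (ι → Bool))
    (hU : ∀ v ∈ U, P (Sum.inl v) = cube v) {y : ι → Bool} (hy : y ∈ U) (j : ι) (γ : ℝ)
    (x : (ι → Bool) ⊕ β) (hx : 1 < -sg (y j) * P x (some j) + γ * P x none)
    (hz : ∀ z, (∀ v ∈ U, z ≠ Sum.inl v) → -1 < -sg (y j) * P z (some j) + γ * P z none ∧
      (z ≠ x → -sg (y j) * P z (some j) + γ * P z none <
        -sg (y j) * P x (some j) + γ * P x none)) :
    Good P x (Sum.inl y) := by
  refine good_of_lex (piv y j γ) (away y) (fun z hzx => Or.inl ?_) (fun z hzy => ?_)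
  · rw [val_piv, val_piv]
    by_cases hm : ∀ v ∈ U, z ≠ Sum.inl v
    · exact (hz z hm).2 hzx
    · push Not at hm
      obtain ⟨v, hv, rfl⟩ := hm
      rw [hU v hv]
      have := neg_one_le_sg_mul (y j) (v j)
      simp only [cube]; linarith
  · rw [val_piv, val_piv, hU y hy]
    have h0 := sg_mul_self (y j)
    by_cases hm : ∀ v ∈ U, z ≠ Sum.inl v
    · left
      have := (hz z hm).1
      simp only [cube]; linarith
    · push Not at hm
      obtain ⟨v, hv, rfl⟩ := hm
      right
      rw [hU v hv]
      refine ⟨?_, away_lt fun h => hzy (by rw [h])⟩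
      have := sg_mul_le (y j) (v j)
      simp only [cube]; linarith

/-- The vertex `x` lifted to height `t` and shrunk by the factor `1 - t ^ 2`. -/
def lift (x : ι → Bool) (t : ℝ) : Option ι → ℝ
  | none => t
  | some i => (1 - t ^ 2) * sg (x i)

omit [DecidableEq ι] in
lemma continuous_val_lift (a : Option ι → ℝ) (x : ι → Bool) :
    Continuous fun t => val a (lift x t) := by
  simp only [val, Fintype.sum_option, lift]
  fun_prop

omit [Fintype ι] [DecidableEq ι] in
lemma lift_zero (x : ι → Bool) : lift x 0 = cube x := by
  funext k; cases k <;> simp [lift, cube]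

/-- If the unmoved vertices `U` sit at their cube positions, all other points lie strictly inside
the prism over the cube and every pair with a moved point is strictly antipodal, then the
remaining vertices can be moved one at a time until every pair is strictly antipodal. -/
theorem step [Finite β] (U : Finset (ι → Bool)) :
    ∀ P : (ι → Bool) ⊕ β → Option ι → ℝ, (∀ v ∈ U, P (Sum.inl v) = cube v) →
      (∀ z, (∀ v ∈ U, z ≠ Sum.inl v) → ∀ i, |P z (some i)| < 1) →
      (∀ x y, x ≠ y → (∀ v ∈ U, x ≠ Sum.inl v) → Good P x y) →
      ∃ Q : (ι → Bool) ⊕ β → Option ι → ℝ, ∀ x y, x ≠ y → Good Q x y := by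
  classical
  induction U using Finset.induction_on with
  | empty => exact fun P _ _ h3 => ⟨P, fun x y hxy => h3 x y hxy (by simp)⟩
  | insert x U hxU ih =>
    intro P h1 h2 h3
    -- the slope `γ`
    have eγ : ∀ᶠ γ in 𝓝[>] (0 : ℝ), ∀ z, ∀ i, (∀ v ∈ insert x U, z ≠ Sum.inl v) →
        |P z (some i)| + γ * |P z none| < 1 := by
      refine Filter.eventually_all.2 fun z => Filter.eventually_all.2 fun i => ?_
      by_cases hm : ∀ v ∈ insert x U, z ≠ Sum.inl v
      · filter_upwards [ev_lex (C := |P z none|) (D := 0) (Or.inl (h2 z hm i))] with w hw _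
        simpa using hw
      · exact Filter.Eventually.of_forall fun w h => absurd h hm
    obtain ⟨γ, hγ, hγ0⟩ := (eγ.and self_mem_nhdsWithin).exists
    have hγ0 : 0 < γ := hγ0
    -- the moved family
    set Q : ℝ → (ι → Bool) ⊕ β → Option ι → ℝ :=
      fun t => Function.update P (Sum.inl x) (lift x t) with hQ
    have hQ0 : Q 0 = P := by
      simp only [hQ, lift_zero]
      rw [← h1 x (Finset.mem_insert_self _ _), Function.update_eq_self]
    have hcont : ∀ a z, ContinuousAt (fun t => val a (Q t z)) 0 := by
      intro a z
      by_cases hz : z = Sum.inl x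
      · subst hz
        simpa [hQ] using (continuous_val_lift a x).continuousAt
      · simp only [hQ, Function.update_of_ne hz]
        exact continuousAt_const
    have eold : ∀ᶠ t in 𝓝 (0 : ℝ), ∀ p q, p ≠ q → (∀ v ∈ insert x U, p ≠ Sum.inl v) →
        Good (Q t) p q := by
      refine Filter.eventually_all.2 fun p => Filter.eventually_all.2 fun q => ?_
      by_cases hc : p ≠ q ∧ ∀ v ∈ insert x U, p ≠ Sum.inl v
      · obtain ⟨a, ha⟩ := h3 p q hc.1 hc.2
        have : ∀ᶠ t in 𝓝 (0 : ℝ), Sep (Q t) p q a := by
          refine Filter.eventually_all.2 fun z => Filter.Eventually.and ?_ ?_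
          · by_cases hz : z = p
            · exact Filter.Eventually.of_forall fun w h => absurd hz h
            · have := (hcont a z).eventually_lt (hcont a p) (by rw [hQ0]; exact (ha z).1 hz)
              exact this.mono fun t ht _ => ht
          · by_cases hz : z = q
            · exact Filter.Eventually.of_forall fun w h => absurd hz h
            · have := (hcont a q).eventually_lt (hcont a z) (by rw [hQ0]; exact (ha z).2 hz)
              exact this.mono fun t ht _ => ht
        exact this.mono fun t ht _ _ => ⟨a, ht⟩
      · exact Filter.Eventually.of_forall fun t h h' => absurd ⟨h, h'⟩ hc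
    have et : ∀ᶠ t in 𝓝[>] (0 : ℝ), t < min γ 1 :=
      Filter.Eventually.filter_mono nhdsWithin_le_nhds (eventually_lt_nhds (by positivity))
    obtain ⟨t, ⟨hold, ht1⟩, ht0⟩ :=
      (((eold.filter_mono nhdsWithin_le_nhds).and et).and self_mem_nhdsWithin).exists
    have ht0 : 0 < t := ht0
    have htγ : t < γ := ht1.trans_le (min_le_left _ _)
    have ht1 : t < 1 := ht1.trans_le (min_le_right _ _)
    have hU' : ∀ v ∈ U, Q t (Sum.inl v) = cube v := by
      intro v hv
      have : (Sum.inl v : (ι → Bool) ⊕ β) ≠ Sum.inl x := by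
        intro h; exact hxU (Sum.inl.inj h ▸ hv)
      simp only [hQ, Function.update_of_ne this]
      exact h1 v (Finset.mem_insert_of_mem hv)
    have hmv : ∀ z : (ι → Bool) ⊕ β, z ≠ Sum.inl x → (∀ v ∈ U, z ≠ Sum.inl v) →
        ∀ v ∈ insert x U, z ≠ Sum.inl v := by
      intro z hz hm v hv
      rcases Finset.mem_insert.1 hv with rfl | hv
      · exact hz
      · exact hm v hv
    refine ih (Q t) hU' (fun z hm i => ?_) (fun p q hpq hm => ?_)
    · by_cases hz : z = Sum.inl x
      · subst hz
        simp only [hQ, Function.update_self, lift, abs_mul, abs_sg, mul_one]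
        rw [abs_lt]; constructor <;> nlinarith
      · simp only [hQ, Function.update_of_ne hz]
        exact h2 z (hmv z hz hm) i
    · by_cases hp : p = Sum.inl x
      · subst hp
        by_cases hq : ∀ v ∈ U, q ≠ Sum.inl v
        · exact (hold q _ hpq.symm (hmv q hpq.symm hq)).symm
        · push Not at hq
          obtain ⟨y, hy, rfl⟩ := hq
          have hxy : x ≠ y := fun h => hpq (by rw [h])
          obtain ⟨j, hj⟩ := Function.ne_iff.1 hxy
          have hval : -sg (y j) * Q t (Sum.inl x) (some j) + γ * Q t (Sum.inl x) none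
              = 1 - t ^ 2 + γ * t := by
            simp only [hQ, Function.update_self, lift]
            have := sg_mul_of_ne hj
            linear_combination (-(1 - t ^ 2)) * this
          have hgt : 1 < 1 - t ^ 2 + γ * t := by nlinarith
          refine good_pivot (U : Set (ι → Bool)) hU' hy j γ _ (by rw [hval]; exact hgt) ?_
          intro z hm'
          by_cases hz : z = Sum.inl x
          · subst hz
            exact ⟨by rw [hval]; linarith, fun h => absurd rfl h⟩
          · have hb := hγ z j (hmv z hz hm')
            have e1 : |-sg (y j) * P z (some j)| = |P z (some j)| := by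
              rw [abs_mul, abs_neg, abs_sg, one_mul]
            have e2 : |γ * P z none| = γ * |P z none| := by rw [abs_mul, abs_of_pos hγ0]
            have e3 := abs_le.1 e1.le
            have e4 := abs_le.1 e2.le
            rw [hval]
            simp only [hQ, Function.update_of_ne hz]
            exact ⟨by linarith [e3.1, e4.1], fun _ => by linarith [e3.2, e4.2]⟩
      · exact hold p q hpq (hmv p hp hm)

end Cube

end Pool.Agent.Bc94b4
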